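import Pool.Agent.Helper13.ZL.Stmts

/-! # MP_8312c9_nt, zero-one law: module VALU -/

set_option autoImplicit false

open scoped Classical

namespace Pool.Agent.Helper13.ZL

open Pool.Agent.Helper14.BSC

section

variable {k : Type} [Field k] [NumberField k] {v : Pl k} {p : ℕ} [Fact p.Prime] {σ : k →+* ℂ_[p]}

theorem valu_one (hov : OverPl v σ) (x : k) : v.valuation k x = 1 ↔ ‖σ x‖ = 1 := by
  by_cases hx : x = 0
  · subst hx
    rw [map_zero, map_zero, norm_zero]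
    exact ⟨fun h => absurd h zero_ne_one, fun h => absurd h zero_ne_one⟩
  · have hv0 : v.valuation k x ≠ 0 := by
      rw [Ne, map_eq_zero]
      exact hx
    have hs0 : 0 < ‖σ x‖ := by
      rw [norm_pos_iff, Ne, map_eq_zero]
      exact hx
    have h1 := hov x
    have h2 := hov x⁻¹
    rw [map_inv₀, map_inv₀, norm_inv] at h2
    have h3 : (v.valuation k x)⁻¹ < 1 ↔ 1 < v.valuation k x :=
      inv_lt_one₀ (zero_lt_iff.2 hv0)
    have h4 : ‖σ x‖⁻¹ < 1 ↔ 1 < ‖σ x‖ := inv_lt_one₀ hs0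
    rw [h3, h4] at h2
    constructor
    · intro h
      rw [h] at h1 h2
      apply le_antisymm
      · by_contra hc
        push Not at hc
        exact lt_irrefl _ (h2.2 hc)
      · by_contra hc
        push Not at hc
        exact lt_irrefl _ (h1.2 hc)
    · intro h
      rw [h] at h1 h2
      apply le_antisymm
      · by_contra hc
        push Not at hc
        exact lt_irrefl _ (h2.1 hc)
      · by_contra hc
        push Not at hc
        exact lt_irrefl _ (h1.1 hc)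

/-- the order of `x` at `v`, and the norm of `σ x` -/
theorem valu_ord (hov : OverPl v σ) : ∃ (u : k) (r : ℝ), u ≠ 0 ∧ 0 < r ∧ r < 1 ∧
    ∀ x : k, x ≠ 0 → ∃ o : ℤ, v.valuation k x = v.valuation k u ^ o ∧ ‖σ x‖ = r ^ o := by
  obtain ⟨u, hu⟩ := v.valuation_exists_uniformizer k
  have hu0 : u ≠ 0 := by
    intro h
    rw [h, map_zero] at hu
    exact WithZero.exp_ne_zero hu.symm
  have hvu0 : v.valuation k u ≠ 0 := by
    rw [Ne, map_eq_zero]
    exact hu0
  refine ⟨u, ‖σ u‖, hu0, ?_, ?_, ?_⟩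
  · rw [norm_pos_iff, Ne, map_eq_zero]
    exact hu0
  · rw [← hov u, hu, ← WithZero.exp_zero, WithZero.exp_lt_exp]
    norm_num
  · intro x hx
    have hvx0 : v.valuation k x ≠ 0 := by
      rw [Ne, map_eq_zero]
      exact hx
    set o : ℤ := -WithZero.log (v.valuation k x) with ho
    have h1 : v.valuation k x = v.valuation k u ^ o := by
      rw [hu, ← WithZero.exp_zsmul, ho, smul_eq_mul, neg_mul_neg, mul_one, WithZero.exp_log hvx0]
    refine ⟨o, h1, ?_⟩
    have h2 : v.valuation k (x * u ^ (-o)) = 1 := by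
      rw [map_mul, map_zpow₀, h1, ← zpow_add₀ hvu0, add_neg_cancel, zpow_zero]
    have h3 := (valu_one hov _).1 h2
    have hsu : ‖σ u‖ ≠ 0 := by
      rw [norm_ne_zero_iff, Ne, map_eq_zero]
      exact hu0
    rw [map_mul, map_zpow₀, norm_mul, norm_zpow, zpow_neg] at h3
    have h4 : ‖σ u‖ ^ o ≠ 0 := zpow_ne_zero _ hsu
    field_simp at h3
    exact h3

end

theorem valu_near {p : ℕ} [Fact p.Prime] {y z : ℂ_[p]} (h : ‖y - z‖ < ‖z‖) : ‖y‖ = ‖z‖ := by
  apply le_antisymm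
  · have : y = (y - z) + z := by ring
    rw [this]
    exact (IsUltrametricDist.norm_add_le_max _ _).trans (max_le h.le le_rfl)
  · by_contra hc
    push Not at hc
    have h2 : z = (z - y) + y := by ring
    have h3 : ‖z‖ < ‖z‖ := by
      calc ‖z‖ = ‖(z - y) + y‖ := by rw [← h2]
        _ ≤ max ‖z - y‖ ‖y‖ := IsUltrametricDist.norm_add_le_max _ _
        _ < ‖z‖ := max_lt (by rw [norm_sub_rev]; exact h) hc
    exact lt_irrefl _ h3

theorem valu_p (p : ℕ) [Fact p.Prime] : ‖(p : ℂ_[p])‖ = (p : ℝ)⁻¹ := by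
  have h1 := PadicComplex.norm_extends' p (p : ℚ_[p])
  rw [Padic.norm_p] at h1
  rw [← h1]
  congr 1
  exact (map_natCast (algebraMap ℚ_[p] ℂ_[p]) p).symm

/-- an element of the fixed field with a power in `k` is in `k` -/
theorem valu_root {k Ω : Type} [Field k] [CharZero k] [Field Ω] [Algebra k Ω] [IsAlgClosed Ω] (hR : ST_ROOT)
    (hB : ST_BOT) (D : Sec k Ω) {n : ℕ} (hn : 0 < n) {y : LL D} {c : k}
    (h : y ^ n = algebraMap k (LL D) c) : ∃ d : k, y = algebraMap k (LL D) d := by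
  have h1 : y ^ n = inc D ∅ (algebraMap k _ c) := by
    rw [h]
    exact ((inc D ∅).commutes c).symm
  obtain ⟨d, hd⟩ := hR k Ω D ∅ n hn y _ h1
  obtain ⟨d₀, hd₀⟩ := hB k Ω (d : Acl k Ω) d.2
  refine ⟨d₀, ?_⟩
  rw [hd]
  apply Subtype.ext
  rw [coe_inc, hd₀]
  rfl

theorem st_VALU (hK : ST_KUM) (hR : ST_ROOT) (hB : ST_BOT) (hE : ST_EFIN) : ST_VALU := by
  intro k Ω _ _ _ _ _ D v p _ σ P hov x hx
  obtain ⟨e, N₀, he, hN₀, hEF⟩ := hE p P.E P.finE
  have hp : p.Prime := Fact.out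
  have hp1 : (1 : ℝ) < p := by exact_mod_cast hp.one_lt
  have hp0 : (0 : ℝ) < p := by linarith
  have hxne : (x : LL D) ≠ 0 := fun h0 => hx ((P.ker x).2 (Or.inl h0))
  have hφ : 0 < ‖P.φ x‖ := norm_pos_iff.2 hx
  obtain ⟨u, r, hu0, hr0, hr1, hord⟩ := valu_ord hov
  have key : ∀ (M : ℕ), 0 < M → ∀ (c : k) (g : LL D), (x : LL D) = algebraMap k (LL D) c * g ^ M →
      ∃ j : ℤ, ‖σ c‖ ^ e = ‖P.φ x‖ ^ e * ((p : ℝ) ^ j) ^ M := by
    intro M hM c g hxc
    obtain ⟨w, hw, y, hy, hyx, hσ⟩ := P.kum x hx M hM ‖P.φ x‖ hφ c g hxc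
    have hc0 : c ≠ 0 := by
      rintro rfl
      rw [map_zero, zero_mul] at hxc
      exact hxne hxc
    have hw0 : w ≠ 0 := by
      rintro rfl
      rw [zero_pow hM.ne', mul_zero, map_eq_zero] at hσ
      exact hc0 hσ
    obtain ⟨⟨j, hj⟩, -⟩ := hEF w hw hw0
    refine ⟨j, ?_⟩
    rw [hσ, norm_mul, norm_pow, mul_pow, valu_near hyx, ← pow_mul, mul_comm M e, pow_mul, hj]
  constructor
  · intro hφ1 N hN b g hxb
    have hM : 0 < e * N := Nat.mul_pos he hN
    obtain ⟨c, hc0, y, hy0, hxc⟩ := hK k Ω D ∅ (e * N) hM (x : LL D) hxne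
    obtain ⟨c₀, hc₀⟩ := hB k Ω (c : Acl k Ω) c.2
    have hinc : inc D ∅ c = algebraMap k (LL D) c₀ := by
      apply Subtype.ext
      rw [coe_inc, hc₀]
      rfl
    rw [hinc] at hxc
    have hc₀0 : c₀ ≠ 0 := by
      rintro rfl
      rw [map_zero, zero_mul] at hxc
      exact hxne hxc
    have hb0 : b ≠ 0 := by
      rintro rfl
      rw [map_zero, zero_mul] at hxb
      exact hxne hxb
    obtain ⟨j, hj⟩ := key (e * N) hM c₀ y hxc
    rw [hφ1, one_pow, one_mul, pow_mul', ← zpow_natCast ((p : ℝ) ^ j) N, ← zpow_mul] at hj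
    have hσc : ‖σ c₀‖ = (p : ℝ) ^ (j * (N : ℤ)) :=
      (pow_left_inj₀ (norm_nonneg _) (zpow_nonneg hp0.le _) he.ne').1 hj
    have hpk : (p : k) ≠ 0 := by exact_mod_cast hp.ne_zero
    obtain ⟨ev, hev1, hev2⟩ := hord (p : k) hpk
    rw [map_natCast, valu_p] at hev2
    obtain ⟨oc, hoc1, hoc2⟩ := hord c₀ hc₀0
    have hoc : oc = -(ev * j) * N := by
      have h1 : r ^ oc = r ^ (-(ev * j) * (N : ℤ)) := by
        rw [← hoc2, hσc]
        have h2 : (p : ℝ) = r ^ (-ev) := by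
          rw [zpow_neg, ← hev2, inv_inv]
        rw [h2, ← zpow_mul]
        congr 1
        ring
      exact zpow_right_injective₀ hr0 hr1.ne h1
    have hbL : algebraMap k (LL D) b ≠ 0 := by
      rw [Ne, map_eq_zero]
      exact hb0
    have hroot : (g / y ^ e) ^ N = algebraMap k (LL D) (c₀ / b) := by
      have h1 : algebraMap k (LL D) b * g ^ N = algebraMap k (LL D) c₀ * y ^ (e * N) := by
        rw [← hxb, ← hxc]
      rw [div_pow, ← pow_mul, map_div₀, div_eq_div_iff (pow_ne_zero _ hy0) hbL, mul_comm, h1]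
    obtain ⟨t₀, ht₀⟩ := valu_root hR hB D hN hroot
    have ht₁ : b * t₀ ^ N = c₀ := by
      rw [ht₀, ← map_pow] at hroot
      have h2 := (algebraMap k (LL D)).injective hroot
      rw [h2]
      field_simp
    refine ⟨t₀ * u ^ (ev * j), ?_⟩
    have h3 : b * (t₀ * u ^ (ev * j)) ^ N = c₀ * u ^ (ev * j * N) := by
      rw [mul_pow, ← mul_assoc, ht₁, ← zpow_natCast (u ^ (ev * j)) N, ← zpow_mul]
    have hvu0 : v.valuation k u ≠ 0 := by
      rw [Ne, map_eq_zero]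
      exact hu0
    rw [h3, map_mul, map_zpow₀, hoc1, hoc, ← zpow_add₀ hvu0]
    have h4 : -(ev * j) * (N : ℤ) + ev * j * N = 0 := by ring
    rw [h4, zpow_zero]
  · intro hφ1
    obtain ⟨w₁, hw₁, y₁, hy₁, hyx₁, -⟩ := P.kum x hx 1 one_pos ‖P.φ x‖ hφ 1 (x : LL D)
      (by rw [map_one, one_mul, pow_one])
    have hy10 : y₁ ≠ 0 := by
      rintro rfl
      have := valu_near hyx₁
      rw [norm_zero] at this
      exact hφ.ne this
    obtain ⟨⟨i, hi⟩, -⟩ := hEF y₁ hy₁ hy10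
    rw [valu_near hyx₁] at hi
    have hi0 : i ≠ 0 := by
      rintro rfl
      rw [zpow_zero] at hi
      exact hφ1 ((pow_eq_one_iff_of_nonneg (norm_nonneg _) he.ne').1 hi)
    refine ⟨i.natAbs, ?_⟩
    intro ℓ hℓ hℓi b g hxb t ht
    have ht0 : t ≠ 0 := by
      rintro rfl
      rw [zero_pow hℓ.ne_zero, mul_zero, map_zero] at ht
      exact zero_ne_one ht
    have htL : algebraMap k (LL D) t ≠ 0 := by
      rw [Ne, map_eq_zero]
      exact ht0
    have hxb2 : (x : LL D) = algebraMap k (LL D) (b * t ^ ℓ) * (g / algebraMap k (LL D) t) ^ ℓ := by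
      rw [hxb, map_mul, map_pow, div_pow]
      field_simp
    obtain ⟨j, hj⟩ := key ℓ hℓ.pos _ _ hxb2
    rw [(valu_one hov _).1 ht, one_pow, hi, ← zpow_natCast ((p : ℝ) ^ j) ℓ, ← zpow_mul,
      ← zpow_add₀ hp0.ne'] at hj
    have h5 : i + j * ℓ = 0 := by
      have : (p : ℝ) ^ (0 : ℤ) = (p : ℝ) ^ (i + j * (ℓ : ℤ)) := by rw [zpow_zero, hj]
      exact (zpow_right_injective₀ hp0 hp1.ne' this).symm
    have h6 : (ℓ : ℤ) ∣ i := ⟨-j, by linarith⟩
    have h7 : ℓ ∣ i.natAbs := Int.natCast_dvd.1 h6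
    exact absurd (Nat.le_of_dvd (Int.natAbs_pos.2 hi0) h7) (not_le.2 hℓi)

end Pool.Agent.Helper13.ZL
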